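import Pool.Agent.helper90.PathPair.Main

/-!
Path-pairable planar graphs have unbounded diameter: for every `D` there is a finite planar
path-pairable graph of diameter at least `D`.
-/

namespace Pool.Agent.Results.MP_9b13a2_co.UnboundedDiameter

open Pool.Agent.helper90.PathPair

/-- For every natural number `D` there is a finite simple graph which is planar, path-pairable
and connected and whose diameter is at least `D`. -/
theorem result : ∀ D : ℕ, ∃ (V : Type) (_ : Fintype V) (G : SimpleGraph V),
    IsPlanar G ∧ IsPathPairable G ∧ G.Connected ∧ D ≤ G.diam :=
  main

end Pool.Agent.Results.MP_9b13a2_co.UnboundedDiameter
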